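import Mathlib
import Pool.Agent.Q90.SF.Stm

/-!
# Zero sets of analytic functions that are flat in one direction
-/

set_option autoImplicit false

open Metric Set Filter Topology

namespace Q190.SF

open Q90.SF

/-- the partial derivative in the first variable -/
noncomputable def TT (g : ℝ × ℝ → ℂ) (p : ℝ × ℝ) : ℂ := fderiv ℝ g p (1, 0)

/-- isolated points of a set are countable -/
lemma iso_countable (A : Set (ℝ × ℝ)) :
    {p | p ∈ A ∧ ∃ ε : ℝ, 0 < ε ∧ ∀ q ∈ A, dist q p < ε → q = p}.Countable := by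
  obtain ⟨B, hB, -, hBb⟩ := TopologicalSpace.exists_countable_basis (ℝ × ℝ)
  have h : ∀ p : ℝ × ℝ, (p ∈ A ∧ ∃ ε : ℝ, 0 < ε ∧ ∀ q ∈ A, dist q p < ε → q = p) →
      ∃ b ∈ B, p ∈ b ∧ ∀ q ∈ A, q ∈ b → q = p := by
    rintro p ⟨hpA, ε, hε, h⟩
    obtain ⟨b, hb, hpb, hbs⟩ := hBb.mem_nhds_iff.mp (ball_mem_nhds p hε)
    exact ⟨b, hb, hpb, fun q hq hqb => h q hq (hbs hqb)⟩
  classical
  set F : ℝ × ℝ → Set (ℝ × ℝ) := fun p =>
    if hp : (p ∈ A ∧ ∃ ε : ℝ, 0 < ε ∧ ∀ q ∈ A, dist q p < ε → q = p) then (h p hp).choose else ∅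
    with hF
  refine Set.countable_of_injective_of_countable_image (f := F) ?_ ?_
  · intro p hp q hq hpq
    have hp' : (p ∈ A ∧ ∃ ε : ℝ, 0 < ε ∧ ∀ q ∈ A, dist q p < ε → q = p) := hp
    have hq' : (q ∈ A ∧ ∃ ε : ℝ, 0 < ε ∧ ∀ r ∈ A, dist r q < ε → r = q) := hq
    simp only [hF, dif_pos hp', dif_pos hq'] at hpq
    have h1 := (h p hp').choose_spec
    have h2 := (h q hq').choose_spec
    rw [hpq] at h1
    exact h2.2.2 p hp'.1 h1.2.1
  · refine hB.mono ?_
    rintro _ ⟨p, hp, rfl⟩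
    have hp' : (p ∈ A ∧ ∃ ε : ℝ, 0 < ε ∧ ∀ q ∈ A, dist q p < ε → q = p) := hp
    simp only [hF, dif_pos hp']
    exact (h p hp').choose_spec.1

lemma step (S : Set (ℝ × ℝ)) (g : ℝ × ℝ → ℂ)
    (hflat : ∀ p ∈ S, ∀ η : ℝ, 0 < η → ∃ ε : ℝ, 0 < ε ∧ ∀ q ∈ S, |q.1 - p.1| < ε →
      |q.2 - p.2| < ε → |q.2 - p.2| ≤ η * |q.1 - p.1|)
    (hd : ∀ p ∈ S, DifferentiableAt ℝ g p) (hc : {p | p ∈ S ∧ g p ≠ 0}.Countable) :
    {p | p ∈ S ∧ TT g p ≠ 0}.Countable := by
  refine (hc.union (iso_countable {p | p ∈ S ∧ g p = 0})).mono ?_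
  rintro p ⟨hp, hT⟩
  by_cases h0 : g p = 0
  · right
    refine ⟨⟨hp, h0⟩, ?_⟩
    by_contra hcon
    push Not at hcon
    apply hT
    -- the estimate
    set a : ℂ := fderiv ℝ g p (1, 0) with ha
    set b : ℂ := fderiv ℝ g p (0, 1) with hb
    have key : ∀ c : ℝ, 0 < c → c ≤ 1 → ‖a‖ ≤ c * (‖b‖ + 1) := by
      intro c hc0 hc1
      have h1 := (hd p hp).hasFDerivAt.isLittleO.def hc0
      rw [Metric.eventually_nhds_iff] at h1
      obtain ⟨ε1, hε1, h1⟩ := h1
      obtain ⟨ε2, hε2, h2⟩ := hflat p hp c hc0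
      obtain ⟨q, ⟨hq, hq0⟩, hqd, hqp⟩ := hcon (min ε1 ε2) (lt_min hε1 hε2)
      have h3 := h1 (lt_of_lt_of_le hqd (min_le_left _ _))
      have hqd2 : dist q p < ε2 := lt_of_lt_of_le hqd (min_le_right _ _)
      rw [Prod.dist_eq, max_lt_iff, Real.dist_eq, Real.dist_eq] at hqd2
      have h4 := h2 q hq hqd2.1 hqd2.2
      have h5 : 0 < |q.1 - p.1| := by
        rw [abs_pos]
        intro h6
        rw [h6, abs_zero, mul_zero] at h4
        have h7 : q.2 - p.2 = 0 := abs_eq_zero.mp (le_antisymm h4 (abs_nonneg _))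
        exact hqp (Prod.ext (by linarith) (by linarith))
      have h6 : ‖q - p‖ = |q.1 - p.1| := by
        rw [Prod.norm_def, Prod.fst_sub, Prod.snd_sub, Real.norm_eq_abs, Real.norm_eq_abs,
          max_eq_left]
        nlinarith
      have h7 : fderiv ℝ g p (q - p) = (q.1 - p.1) • a + (q.2 - p.2) • b := by
        have : q - p = (q.1 - p.1) • ((1 : ℝ), (0 : ℝ)) + (q.2 - p.2) • ((0 : ℝ), (1 : ℝ)) := by
          ext <;> simp
        rw [this, map_add, map_smul, map_smul]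
      rw [hq0, h0, sub_zero, zero_sub, norm_neg, h7, h6] at h3
      have h8 : |q.1 - p.1| * ‖a‖ ≤ c * |q.1 - p.1| + |q.2 - p.2| * ‖b‖ := by
        have h9 : (q.1 - p.1) • a = ((q.1 - p.1) • a + (q.2 - p.2) • b) - (q.2 - p.2) • b := by
          abel
        have h10 : ‖(q.1 - p.1) • a‖ ≤ ‖(q.1 - p.1) • a + (q.2 - p.2) • b‖ + ‖(q.2 - p.2) • b‖ := by
          conv_lhs => rw [h9]
          exact norm_sub_le _ _
        rw [norm_smul, norm_smul, Real.norm_eq_abs, Real.norm_eq_abs] at h10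
        linarith
      have h11 : |q.1 - p.1| * ‖a‖ ≤ |q.1 - p.1| * (c * (‖b‖ + 1)) := by
        nlinarith [mul_le_mul_of_nonneg_right h4 (norm_nonneg b)]
      exact le_of_mul_le_mul_left h11 h5
    have h12 : ‖a‖ ≤ 0 := by
      refine le_of_forall_pos_le_add (fun e he => ?_)
      set c := min 1 (e / (‖b‖ + 1)) with hc
      have hc0 : 0 < c := lt_min one_pos (by positivity)
      have h13 := key c hc0 (min_le_left _ _)
      have h14 : c * (‖b‖ + 1) ≤ e := by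
        have : c ≤ e / (‖b‖ + 1) := min_le_right _ _
        rw [le_div_iff₀ (by positivity)] at this
        exact this
      linarith
    exact norm_le_zero_iff.mp h12
  · left
    exact ⟨hp, h0⟩

lemma TT_analytic (J : Set ℝ) (g : ℝ × ℝ → ℂ) (hg : AnalyticOnNhd ℝ g (J ×ˢ univ)) :
    AnalyticOnNhd ℝ (TT g) (J ×ˢ univ) := by
  have h1 := hg.fderiv
  exact (ContinuousLinearMap.apply ℝ ℂ ((1 : ℝ), (0 : ℝ))).comp_analyticOnNhd h1

theorem abs_all : S_abs := by
  intro J S f hJ hJc hSJ hflat hf hf0 hS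
  have hmem : ∀ p ∈ S, p ∈ J ×ˢ (univ : Set ℝ) := fun p hp => ⟨hSJ p hp, mem_univ _⟩
  have hg : ∀ k n, AnalyticOnNhd ℝ (TT^[n] (f k)) (J ×ˢ univ) := by
    intro k n
    induction n with
    | zero => exact hf k
    | succ n ih =>
      rw [Function.iterate_succ_apply']
      exact TT_analytic J _ ih
  have hc : ∀ k n, {p | p ∈ S ∧ TT^[n] (f k) p ≠ 0}.Countable := by
    intro k n
    induction n with
    | zero =>
      refine Set.Countable.mono ?_ countable_empty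
      rintro p ⟨hp, h⟩
      exact h (hf0 k p hp)
    | succ n ih =>
      rw [Function.iterate_succ_apply']
      exact step S _ hflat (fun p hp => (hg k n p (hmem p hp)).differentiableAt) ih
  have hU : (⋃ k : ℕ, ⋃ n : ℕ, {p | p ∈ S ∧ TT^[n] (f k) p ≠ 0}).Countable :=
    countable_iUnion (fun k => countable_iUnion (fun n => hc k n))
  obtain ⟨p, hp, hpU⟩ : ∃ p ∈ S, p ∉ ⋃ k : ℕ, ⋃ n : ℕ, {p | p ∈ S ∧ TT^[n] (f k) p ≠ 0} := by
    by_contra hcon
    push Not at hcon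
    exact hS (hU.mono hcon)
  have hp0 : ∀ k n, TT^[n] (f k) p = 0 := by
    intro k n
    by_contra h
    exact hpU (mem_iUnion.mpr ⟨k, mem_iUnion.mpr ⟨n, ⟨hp, h⟩⟩⟩)
  refine ⟨p, hp, fun k => ?_⟩
  -- the one-variable function
  have hline : ∀ t : ℝ, HasDerivAt (fun t : ℝ => (t, p.2)) ((1 : ℝ), (0 : ℝ)) t := fun t =>
    (hasDerivAt_id t).prodMk (hasDerivAt_const t p.2)
  have hder : ∀ n : ℕ, ∀ t ∈ J, HasDerivAt (fun t : ℝ => TT^[n] (f k) (t, p.2))
      (TT^[n + 1] (f k) (t, p.2)) t := by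
    intro n t ht
    rw [Function.iterate_succ_apply']
    have h1 := (hg k n (t, p.2) ⟨ht, mem_univ _⟩).differentiableAt.hasFDerivAt
    exact h1.comp_hasDerivAt t (hline t)
  have hiter : ∀ n : ℕ, ∀ t ∈ J, iteratedDeriv n (fun t : ℝ => f k (t, p.2)) t =
      TT^[n] (f k) (t, p.2) := by
    intro n
    induction n with
    | zero => intro t _; simp
    | succ n ih =>
      intro t ht
      rw [iteratedDeriv_succ]
      have h1 : iteratedDeriv n (fun t : ℝ => f k (t, p.2)) =ᶠ[𝓝 t]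
          fun t : ℝ => TT^[n] (f k) (t, p.2) := by
        filter_upwards [hJ.mem_nhds ht] with s hs using ih s hs
      rw [h1.deriv_eq]
      exact (hder n t ht).deriv
  have hpJ : p.1 ∈ J := hSJ p hp
  have han : AnalyticOnNhd ℝ (fun t : ℝ => f k (t, p.2)) J := by
    intro t ht
    have h1 : AnalyticAt ℝ (fun t : ℝ => (t, p.2)) t := analyticAt_id.prod analyticAt_const
    exact AnalyticAt.comp (g := f k) (f := fun t : ℝ => (t, p.2)) (x := t)
      (hf k (t, p.2) ⟨ht, mem_univ _⟩) h1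
  have hloc : (fun t : ℝ => f k (t, p.2)) =ᶠ[𝓝 p.1] 0 := by
    obtain ⟨P, r, hP⟩ := han p.1 hpJ
    have hmem : Metric.eball p.1 r ∈ 𝓝 p.1 := Metric.eball_mem_nhds _ hP.r_pos
    filter_upwards [hmem] with t ht
    have hy : t - p.1 ∈ Metric.eball (0 : ℝ) r := by
      rw [Metric.mem_eball, edist_eq_enorm_sub] at ht ⊢
      simpa using ht
    have h1 := hP.hasSum_iteratedFDeriv hy
    have h2 : ∀ n : ℕ, iteratedFDeriv ℝ n (fun t : ℝ => f k (t, p.2)) p.1
        (fun _ => t - p.1) = 0 := by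
      intro n
      rw [iteratedFDeriv_apply_eq_iteratedDeriv_mul_prod, hiter n p.1 hpJ, hp0 k n, smul_zero]
    simp only [h2, smul_zero] at h1
    have h3 := h1.unique hasSum_zero
    rw [add_sub_cancel] at h3
    exact h3
  intro t ht
  exact han.eqOn_zero_of_preconnected_of_eventuallyEq_zero hJc hpJ hloc ht

end Q190.SF
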