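import Mathlib
import Pool.Agent.Q90.SF.Stm

/-!
# Joint real analyticity of an exponential integral in two variables
-/

set_option autoImplicit false

open MeasureTheory Metric Set Filter Topology

namespace Q190.SF

open Q90.SF

abbrev KK (M : ℝ) : Type := (Icc (-M) M) × (Icc (-M) M)

abbrev AA (M : ℝ) : Type := C(KK M, ℂ)

noncomputable def PP (M : ℝ) : AA M := ⟨fun k => ((k.1 : ℝ) : ℂ), by fun_prop⟩
noncomputable def QQ (M : ℝ) : AA M := ⟨fun k => ((k.2 : ℝ) : ℂ), by fun_prop⟩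

section
variable {Y : Type} [MeasurableSpace Y] (μ : Measure Y) [IsFiniteMeasure μ] (M : ℝ)
  (κ : Y → KK M) (hκ : Measurable κ) (w : Y → ℝ) (hw : Measurable w) (C : ℝ)
  (hC : ∀ y, |w y| ≤ C)

include hκ hw hC in
lemma int_g (g : AA M) : Integrable (fun y => g (κ y) * (w y : ℂ)) μ := by
  refine Integrable.mono' (integrable_const (‖g‖ * C)) ?_ ?_
  · have h1 : Measurable (fun y => g (κ y)) := g.continuous.measurable.comp hκ
    exact (h1.mul hw.complex_ofReal).aestronglyMeasurable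
  · refine Eventually.of_forall (fun y => ?_)
    rw [norm_mul, Complex.norm_real, Real.norm_eq_abs]
    have h1 := g.norm_coe_le_norm (κ y)
    have h2 := hC y
    have h3 := abs_nonneg (w y)
    gcongr

/-- The integral functional. -/
noncomputable def Lam : AA M →L[ℝ] ℂ :=
  LinearMap.mkContinuous
    { toFun := fun g => ∫ y, g (κ y) * (w y : ℂ) ∂μ
      map_add' := fun g h => by
        rw [← integral_add (int_g μ M κ hκ w hw C hC g) (int_g μ M κ hκ w hw C hC h)]
        congr 1; ext y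
        simp [add_mul]
      map_smul' := fun c g => by
        rw [RingHom.id_apply, ← integral_smul]
        congr 1; ext y
        simp [mul_assoc] }
    (C * μ.real univ) (fun g => by
      have := norm_integral_le_of_norm_le_const (μ := μ) (f := fun y => g (κ y) * (w y : ℂ))
        (C := ‖g‖ * C) (Eventually.of_forall (fun y => by
          rw [norm_mul, Complex.norm_real, Real.norm_eq_abs]
          have h1 := g.norm_coe_le_norm (κ y)
          have h2 := hC y
          have h3 := abs_nonneg (w y)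
          gcongr))
      refine this.trans (le_of_eq ?_)
      ring)

lemma Lam_apply (g : AA M) : Lam μ M κ hκ w hw C hC g = ∫ y, g (κ y) * (w y : ℂ) ∂μ := rfl

end

lemma exp_eval (M : ℝ) (g : AA M) (k : KK M) :
    (NormedSpace.exp g : AA M) k = Complex.exp (g k) := by
  have h := NormedSpace.map_exp (ContinuousMap.evalAlgHom ℂ ℂ k : AA M →ₐ[ℂ] ℂ)
    (continuous_eval_const k) g
  rw [Complex.exp_eq_exp_ℂ]
  exact h

theorem ana : S_ana := by
  intro Y _ μ _ M a0 a1 a2 p q w0 w1 w2 J hp hq hw0 hw1 hw2 bp bq b0 b1 b2 hA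
  intro z hz
  have hzJ : z.1 ∈ J := hz.1
  set M' : ℝ := |M| with hM'
  have bp' : ∀ y, p y ∈ Icc (-M') M' := fun y =>
    abs_le.mp ((bp y).trans (le_abs_self M))
  have bq' : ∀ y, q y ∈ Icc (-M') M' := fun y =>
    abs_le.mp ((bq y).trans (le_abs_self M))
  set κ : Y → KK M' := fun y => (⟨p y, bp' y⟩, ⟨q y, bq' y⟩) with hκdef
  have hκ : Measurable κ := (hp.subtype_mk).prodMk (hq.subtype_mk)
  set G : ℝ × ℝ → AA M' := fun z => NormedSpace.exp
    ((z.2 / √(a0 + a1 * z.1 + a2 * z.1 ^ 2)) • (Complex.I • PP M') +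
      (z.2 / √(a0 + a1 * z.1 + a2 * z.1 ^ 2) * z.1) • (Complex.I • QQ M')) with hG
  have hGe : ∀ z y, G z (κ y) = Complex.exp
      (((z.2 / √(a0 + a1 * z.1 + a2 * z.1 ^ 2) * (p y + z.1 * q y) : ℝ) : ℂ) * Complex.I) := by
    intro z y
    simp only [hG]
    rw [exp_eval]
    congr 1
    simp only [ContinuousMap.add_apply, ContinuousMap.smul_apply, PP, QQ, ContinuousMap.coe_mk,
      hκdef, Complex.real_smul, smul_eq_mul]
    push_cast
    ring
  -- analyticity of the square root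
  have hpoly : AnalyticAt ℝ (fun z : ℝ × ℝ => a0 + a1 * z.1 + a2 * z.1 ^ 2) z :=
    (analyticAt_const.add (analyticAt_const.mul analyticAt_fst)).add
      (analyticAt_const.mul (analyticAt_fst.pow 2))
  have hsq : AnalyticAt ℝ (fun z : ℝ × ℝ => Real.exp (-(1 / 2) *
      Real.log (a0 + a1 * z.1 + a2 * z.1 ^ 2))) z := by
    refine AnalyticAt.rexp' ?_
    exact analyticAt_const.mul (AnalyticAt.comp (g := Real.log)
      (f := fun z : ℝ × ℝ => a0 + a1 * z.1 + a2 * z.1 ^ 2) (x := z)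
      (analyticAt_log (hA z.1 hzJ)) hpoly)
  have hinv : ∀ᶠ u : ℝ × ℝ in 𝓝 z, Real.exp (-(1 / 2) *
      Real.log (a0 + a1 * u.1 + a2 * u.1 ^ 2)) = (√(a0 + a1 * u.1 + a2 * u.1 ^ 2))⁻¹ := by
    have := hpoly.continuousAt.eventually (lt_mem_nhds (hA z.1 hzJ))
    filter_upwards [this] with u hu
    rw [neg_mul, Real.exp_neg, Real.sqrt_eq_rpow, Real.rpow_def_of_pos hu, mul_comm]
  have hx : AnalyticAt ℝ (fun z : ℝ × ℝ => z.2 / √(a0 + a1 * z.1 + a2 * z.1 ^ 2)) z := by
    have h1 : AnalyticAt ℝ (fun z : ℝ × ℝ => z.2 * Real.exp (-(1 / 2) *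
      Real.log (a0 + a1 * z.1 + a2 * z.1 ^ 2))) z := analyticAt_snd.mul hsq
    refine h1.congr ?_
    filter_upwards [hinv] with u hu
    rw [hu, div_eq_mul_inv]
  have hGa : AnalyticAt ℝ G z := by
    have h1 : AnalyticAt ℝ (fun z : ℝ × ℝ =>
        ((z.2 / √(a0 + a1 * z.1 + a2 * z.1 ^ 2)) • (Complex.I • PP M') +
        (z.2 / √(a0 + a1 * z.1 + a2 * z.1 ^ 2) * z.1) • (Complex.I • QQ M'))) z :=
      (hx.smul analyticAt_const).add ((hx.mul analyticAt_fst).smul analyticAt_const)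
    exact (NormedSpace.exp_analytic (𝕂 := ℝ) _).comp h1
  have hL : ∀ (w : Y → ℝ) (hw : Measurable w) (hb : ∀ y, |w y| ≤ M),
      AnalyticAt ℝ (fun z => Lam μ M' κ hκ w hw M hb (G z)) z := by
    intro w hw hb
    exact ((Lam μ M' κ hκ w hw M hb).analyticAt (G z)).comp hGa
  have hfin : AnalyticAt ℝ (fun z : ℝ × ℝ => Lam μ M' κ hκ w0 hw0 M b0 (G z) +
      z.1 • Lam μ M' κ hκ w1 hw1 M b1 (G z) + (z.1 ^ 2) • Lam μ M' κ hκ w2 hw2 M b2 (G z)) z :=
    ((hL w0 hw0 b0).add (analyticAt_fst.smul (hL w1 hw1 b1))).add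
      ((analyticAt_fst.pow 2).smul (hL w2 hw2 b2))
  convert hfin using 1
  ext z
  have i0 := int_g μ M' κ hκ w0 hw0 M b0 (G z)
  have i1 : Integrable (fun y => z.1 • (G z (κ y) * (w1 y : ℂ))) μ :=
    (int_g μ M' κ hκ w1 hw1 M b1 (G z)).smul z.1
  have i2 : Integrable (fun y => (z.1 ^ 2) • (G z (κ y) * (w2 y : ℂ))) μ :=
    (int_g μ M' κ hκ w2 hw2 M b2 (G z)).smul (z.1 ^ 2)
  have i3 : Integrable (fun y => G z (κ y) * (w0 y : ℂ) + z.1 • (G z (κ y) * (w1 y : ℂ))) μ :=
    i0.add i1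
  rw [Lam_apply, Lam_apply, Lam_apply, ← integral_smul, ← integral_smul,
    ← integral_add i0 i1, ← integral_add i3 i2]
  congr 1
  ext y
  rw [hGe]
  simp only [Complex.real_smul]
  push_cast
  ring

end Q190.SF
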