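import Mathlib
import Pool.Agent.Q90.SF.Stm
import Pool.Agent.Q84.L2Fourier

/-!
# The central estimate: two domains with a potential at the same frequency
-/

set_option autoImplicit false

open MeasureTheory Metric Set
open scoped Real FourierTransform

namespace Q190.SF

open Q90.SF

/-- The phase. -/
noncomputable def ph (w x : ℂ) : ℂ :=
  Complex.exp (((inner ℝ ((-(2 * π)) • w) x : ℝ) : ℂ) * Complex.I)

lemma ph_cont (w : ℂ) : Continuous (ph w) := by
  unfold ph
  fun_prop

lemma norm_ph (w x : ℂ) : ‖ph w x‖ = 1 := Complex.norm_exp_ofReal_mul_I _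

lemma F_eq (f : ℂ → ℂ) (w : ℂ) : 𝓕 f w = ∫ x, ph w x * f x := by
  rw [Real.fourier_eq']
  congr 1
  ext x
  unfold ph
  rw [smul_eq_mul, real_inner_smul_left, real_inner_comm]
  congr 3
  push_cast
  ring

lemma int_ph (f : ℂ → ℂ) (hf : Integrable f) (w : ℂ) : Integrable (fun x => ph w x * f x) := by
  refine Integrable.mono hf ((ph_cont w).aestronglyMeasurable.mul hf.1) ?_
  exact Filter.Eventually.of_forall (fun x => by rw [norm_mul, norm_ph, one_mul])

lemma F_sub (f g : ℂ → ℂ) (hf : Integrable f) (hg : Integrable g) (w : ℂ) :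
    𝓕 (fun x => f x - g x) w = 𝓕 f w - 𝓕 g w := by
  rw [F_eq, F_eq, F_eq, ← integral_sub (int_ph f hf w) (int_ph g hg w)]
  congr 1
  ext x
  ring

lemma F_norm (f : ℂ → ℂ) (w : ℂ) : ‖𝓕 f w‖ ≤ ∫ x, ‖f x‖ := by
  rw [F_eq]
  refine (norm_integral_le_integral_norm _).trans (le_of_eq ?_)
  congr 1
  ext x
  rw [norm_mul, norm_ph, one_mul]

/-- the indicator function with complex values -/
noncomputable def ind (D : Set ℂ) : ℂ → ℂ := D.indicator (fun _ => (1 : ℂ))

lemma F_ind (D : Set ℂ) (hD : MeasurableSet D) (w : ℂ) : 𝓕 (ind D) w = ft D ((-(2 * π)) • w) := by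
  rw [F_eq]
  unfold ft ind
  rw [← integral_indicator hD]
  congr 1
  ext x
  by_cases h : x ∈ D
  · rw [indicator_of_mem h, indicator_of_mem h, mul_one]; rfl
  · rw [indicator_of_notMem h, indicator_of_notMem h, mul_zero]

lemma F_pot {D : Set ℂ} (hD : MeasurableSet D) {lam : ℝ} {U : ℂ → ℝ} (h : Pot D lam U) (w : ℂ) :
    𝓕 (ind D) w = ((lam - (2 * π * ‖w‖) ^ 2 : ℝ) : ℂ) * 𝓕 (fun x => (U x : ℂ)) w := by
  rw [F_ind D hD, ← h.eq, F_eq]
  congr 3
  rw [norm_smul, norm_neg, Real.norm_eq_abs, abs_of_pos (by positivity)]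

lemma star_ind (D : Set ℂ) (x : ℂ) : star (ind D x) = ind D x := by
  unfold ind
  by_cases h : x ∈ D
  · rw [indicator_of_mem h, star_one]
  · rw [indicator_of_notMem h, star_zero]

lemma memLp_ind (D : Set ℂ) (hD : MeasurableSet D) (hf : volume D ≠ ⊤) (p : ENNReal) :
    MemLp (ind D) p := memLp_indicator_const p hD 1 (Or.inr hf)

lemma int_ind (D : Set ℂ) (hD : MeasurableSet D) (hf : volume D ≠ ⊤) : Integrable (ind D) :=
  memLp_one_iff_integrable.mp (memLp_ind D hD hf 1)

lemma norm_ind (D : Set ℂ) (hD : MeasurableSet D) : ∫ x, ‖ind D x‖ = volume.real D := by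
  have : ∀ x, ‖ind D x‖ = D.indicator (fun _ => (1 : ℝ)) x := by
    intro x
    unfold ind
    by_cases h : x ∈ D
    · rw [indicator_of_mem h, indicator_of_mem h, norm_one]
    · rw [indicator_of_notMem h, indicator_of_notMem h, norm_zero]
  simp_rw [this]
  rw [integral_indicator_const _ hD, smul_eq_mul, mul_one]

/-- Plancherel -/
lemma plancherel (f : ℂ → ℂ) (f1 : Integrable f) (f2 : MemLp f 2) :
    ∫ w, ‖𝓕 f w‖ ^ 2 = ∫ x, ‖f x‖ ^ 2 := by
  have h := Q84.L2Fourier.parseval f f f1 f2 f1 f2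
  have e : ∀ z : ℂ, z * star z = ((‖z‖ ^ 2 : ℝ) : ℂ) := by
    intro z
    rw [Complex.star_def, Complex.mul_conj, Complex.normSq_eq_norm_sq]
  simp_rw [e] at h
  rw [integral_complex_ofReal, integral_complex_ofReal] at h
  exact_mod_cast h

lemma int_sq (f : ℂ → ℂ) (f1 : Integrable f) (f2 : MemLp f 2) :
    Integrable (fun w => ‖𝓕 f w‖ ^ 2) := by
  have := Q84.L2Fourier.memLp_fourier f f1 f2
  exact (memLp_two_iff_integrable_sq_norm this.1).mp this

lemma ph_diff (w v x : ℂ) (ρ : ℝ) (hx : ‖x‖ ≤ ρ) :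
    ‖ph w x - ph v x‖ ≤ 2 * π * ρ * ‖w - v‖ := by
  have h1 : ph w x - ph v x = ph v x *
      (Complex.exp (Complex.I * ((inner ℝ ((-(2 * π)) • (w - v)) x : ℝ) : ℂ)) - 1) := by
    unfold ph
    rw [mul_sub, mul_one, ← Complex.exp_add]
    congr 2
    rw [smul_sub, inner_sub_left]
    push_cast
    ring
  rw [h1, norm_mul, norm_ph, one_mul]
  refine Real.norm_exp_I_mul_ofReal_sub_one_le.trans ?_
  refine (abs_real_inner_le_norm _ _).trans ?_
  rw [norm_smul, norm_neg, Real.norm_eq_abs, abs_of_pos (by positivity)]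
  calc 2 * π * ‖w - v‖ * ‖x‖ ≤ 2 * π * ‖w - v‖ * ρ := by gcongr
    _ = 2 * π * ρ * ‖w - v‖ := by ring

lemma radial (r0 : ℝ) (hr0 : 0 < r0) (w : ℂ) : ∃ v : ℂ, ‖v‖ = r0 ∧ ‖w - v‖ = |‖w‖ - r0| := by
  by_cases hw : w = 0
  · refine ⟨(r0 : ℂ), ?_, ?_⟩
    · rw [Complex.norm_real, Real.norm_eq_abs, abs_of_pos hr0]
    · rw [hw, zero_sub, norm_neg, Complex.norm_real, norm_zero, zero_sub, abs_neg]; rfl
  · have hw0 : 0 < ‖w‖ := norm_pos_iff.mpr hw
    refine ⟨(r0 / ‖w‖) • w, ?_, ?_⟩
    · rw [norm_smul, Real.norm_eq_abs, abs_of_pos (by positivity)]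
      field_simp
    · have h1 : w - (r0 / ‖w‖) • w = ((‖w‖ - r0) / ‖w‖) • w := by
        rw [sub_div, div_self hw0.ne', sub_smul, one_smul]
      rw [h1, norm_smul, Real.norm_eq_abs, abs_div, abs_of_pos hw0]
      field_simp

theorem flat : S_flat := by
  intro lam ρ η hlam hρ hη
  set N : ℝ := 2 * lam / η with hN
  have hN0 : 0 < N := by positivity
  set R : ℝ := √(N + lam) / (2 * π) with hR
  set V : ℝ := volume.real (ball (0 : ℂ) R) with hV
  have hV0 : 0 ≤ V := measureReal_nonneg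
  refine ⟨η / (2 * (√lam * V * ρ) + 1), by positivity, ?_⟩
  intro D D' U U' hD hD' hDρ hDρ' hU hU' hδ
  set δ : ℝ := volume.real (symmDiff D' D) with hδdef
  have hδ0 : 0 ≤ δ := measureReal_nonneg
  have hDS : MeasurableSet (symmDiff D' D) := hD'.symmDiff hD
  have hSρ : symmDiff D' D ⊆ ball 0 ρ := by
    intro x hx
    rcases hx with hx | hx
    · exact hDρ' hx.1
    · exact hDρ hx.1
  have fD : volume D ≠ ⊤ := (lt_of_le_of_lt (measure_mono hDρ) measure_ball_lt_top).ne
  have fD' : volume D' ≠ ⊤ := (lt_of_le_of_lt (measure_mono hDρ') measure_ball_lt_top).ne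
  have fS : volume (symmDiff D' D) ≠ ⊤ :=
    (lt_of_le_of_lt (measure_mono hSρ) measure_ball_lt_top).ne
  -- the functions
  set u : ℂ → ℂ := fun x => (U x : ℂ) with hu
  set u' : ℂ → ℂ := fun x => (U' x : ℂ) with hu'
  have u1 : Integrable u := hU.l1.ofReal
  have u1' : Integrable u' := hU'.l1.ofReal
  have u2 : MemLp u 2 := hU.l2.ofReal
  have u2' : MemLp u' 2 := hU'.l2.ofReal
  set m : ℂ → ℝ := fun w => lam - (2 * π * ‖w‖) ^ 2 with hm
  have P := fun w => F_pot hD hU w
  have P' := fun w => F_pot hD' hU' w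
  set W : ℂ → ℂ := fun x => u' x - u x with hW
  set s : ℂ → ℂ := fun x => ind D' x - ind D x with hs
  have W1 : Integrable W := u1'.sub u1
  have W2 : MemLp W 2 := u2'.sub u2
  have s1 : Integrable s := (int_ind D' hD' fD').sub (int_ind D hD fD)
  have s2 : MemLp s 2 := (memLp_ind D' hD' fD' 2).sub (memLp_ind D hD fD 2)
  have S1 : Integrable (ind (symmDiff D' D)) := int_ind _ hDS fS
  have S2 : MemLp (ind (symmDiff D' D)) 2 := memLp_ind _ hDS fS 2
  have Fs : ∀ w, 𝓕 s w = (m w : ℂ) * 𝓕 W w := by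
    intro w
    rw [hs, F_sub _ _ (int_ind D' hD' fD') (int_ind D hD fD), P, P', hW, F_sub _ _ u1' u1]
    ring
  have hsn : ∀ x, ‖s x‖ = ‖ind (symmDiff D' D) x‖ := by
    intro x
    simp only [hs, ind]
    by_cases h1 : x ∈ D' <;> by_cases h2 : x ∈ D
    · rw [indicator_of_mem h1, indicator_of_mem h2, indicator_of_notMem, sub_self]
      simp [mem_symmDiff, h1, h2]
    · rw [indicator_of_mem h1, indicator_of_notMem h2, indicator_of_mem, sub_zero]
      simp [mem_symmDiff, h1, h2]
    · rw [indicator_of_notMem h1, indicator_of_mem h2, indicator_of_mem, zero_sub, norm_neg]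
      simp [mem_symmDiff, h1, h2]
    · rw [indicator_of_notMem h1, indicator_of_notMem h2, indicator_of_notMem, sub_zero]
      simp [mem_symmDiff, h1, h2]
  have hS_int : ∫ x, ‖ind (symmDiff D' D) x‖ = δ := norm_ind _ hDS
  have hs_int : ∫ x, ‖s x‖ = δ := by simp_rw [hsn]; exact hS_int
  have hSsq : ∫ x, ‖ind (symmDiff D' D) x‖ ^ 2 = δ := by
    rw [← hS_int]
    congr 1
    ext x
    unfold ind
    by_cases h : x ∈ symmDiff D' D
    · rw [indicator_of_mem h, norm_one, one_pow]
    · rw [indicator_of_notMem h, norm_zero, zero_pow (by norm_num)]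
  have hssq : ∫ x, ‖s x‖ ^ 2 = δ := by simp_rw [hsn]; exact hSsq
  -- (1)
  have a1 : (lam : ℂ) * ∫ x, u x = (volume.real D : ℂ) := by
    have := hU.eq 0
    simpa [ft, hu] using this
  have a1' : (lam : ℂ) * ∫ x, u' x = (volume.real D' : ℂ) := by
    have := hU'.eq 0
    simpa [ft, hu'] using this
  -- (2)
  have a2 : ∫ x, u x * ind D' x = ∫ x, ind D x * u' x := by
    have h1 := Q84.L2Fourier.parseval u (ind D') u1 u2 (int_ind D' hD' fD')
      (memLp_ind D' hD' fD' 2)
    have h2 := Q84.L2Fourier.parseval (ind D) u' (int_ind D hD fD) (memLp_ind D hD fD 2) u1' u2'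
    have h3 : ∫ y, 𝓕 u y * star (𝓕 (ind D') y) = ∫ y, 𝓕 (ind D) y * star (𝓕 u' y) := by
      congr 1
      ext y
      rw [P, P', star_mul', Complex.star_def, Complex.conj_ofReal]
      simp only [hu, hu']
      ring
    have h4 : ∀ x, star (u' x) = u' x := fun x => Complex.conj_ofReal _
    simp only [star_ind] at h1
    simp only [h4] at h2
    rw [← h1, ← h2, h3]
  -- (3)
  have iprod : ∀ (f : ℂ → ℂ) (E : Set ℂ), MeasurableSet E → Integrable f →
      Integrable (fun x => f x * ind E x) := by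
    intro f E hE hf
    refine (hf.indicator hE).congr (Filter.Eventually.of_forall (fun x => ?_))
    simp only [ind]
    by_cases h : x ∈ E
    · rw [indicator_of_mem h, indicator_of_mem h, mul_one]
    · rw [indicator_of_notMem h, indicator_of_notMem h, mul_zero]
  have a3 : ∫ x, W x * star (ind (symmDiff D' D) x) = (∫ x, u' x) - ∫ x, u x := by
    have e : ∀ x, W x * star (ind (symmDiff D' D) x) =
        (u x * ind D' x + u' x) - (u x + ind D x * u' x) := by
      intro x
      rw [star_ind]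
      simp only [hW, ind]
      by_cases h1 : x ∈ D' <;> by_cases h2 : x ∈ D
      · rw [indicator_of_mem h1, indicator_of_mem h2, indicator_of_notMem]
        · ring
        · simp [mem_symmDiff, h1, h2]
      · have hz : u x = 0 := by simp only [hu]; rw [hU.supp x h2, Complex.ofReal_zero]
        rw [indicator_of_mem h1, indicator_of_notMem h2, indicator_of_mem, hz]
        · ring
        · simp [mem_symmDiff, h1, h2]
      · have hz : u' x = 0 := by simp only [hu']; rw [hU'.supp x h1, Complex.ofReal_zero]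
        rw [indicator_of_notMem h1, indicator_of_mem h2, indicator_of_mem, hz]
        · ring
        · simp [mem_symmDiff, h1, h2]
      · have hz : u x = 0 := by simp only [hu]; rw [hU.supp x h2, Complex.ofReal_zero]
        have hz' : u' x = 0 := by simp only [hu']; rw [hU'.supp x h1, Complex.ofReal_zero]
        rw [indicator_of_notMem h1, indicator_of_notMem h2, indicator_of_notMem, hz, hz']
        · ring
        · simp [mem_symmDiff, h1, h2]
    simp_rw [e]
    have i1 := iprod u D' hD' u1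
    have i2 : Integrable (fun x => ind D x * u' x) := by
      refine (iprod u' D hD u1').congr (Filter.Eventually.of_forall (fun x => ?_))
      exact mul_comm _ _
    have i3 : Integrable (fun x => u x * ind D' x + u' x) := i1.add u1'
    have i4 : Integrable (fun x => u x + ind D x * u' x) := u1.add i2
    rw [integral_sub i3 i4, integral_add i1 u1', integral_add u1 i2, a2]
    ring
  have a4 := Q84.L2Fourier.parseval W (ind (symmDiff D' D)) W1 W2 S1 S2
  -- pointwise bound of the Fourier transform of `W`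
  have hsl : 0 < √lam := Real.sqrt_pos.mpr hlam
  have hsl2 : √lam * √lam = lam := Real.mul_self_sqrt hlam.le
  have hb : ∀ w, m w ≠ 0 → ‖𝓕 W w‖ ≤ ρ * δ / √lam := by
    intro w hw
    obtain ⟨v, hv1, hv2⟩ := radial (√lam / (2 * π)) (by positivity) w
    have hv3 : 2 * π * ‖v‖ = √lam := by rw [hv1]; field_simp
    have hmv : m v = 0 := by simp only [hm]; rw [hv3]; nlinarith
    have h1 : 𝓕 s v = 0 := by rw [Fs, hmv]; simp
    have h2 : ‖𝓕 s w‖ ≤ 2 * π * ρ * ‖w - v‖ * δ := by
      have h3 : 𝓕 s w = ∫ x, (ph w x - ph v x) * s x := by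
        rw [← sub_zero (𝓕 s w), ← h1, F_eq, F_eq, ← integral_sub (int_ph s s1 w) (int_ph s s1 v)]
        congr 1
        ext x
        ring
      rw [h3, ← hs_int, ← integral_const_mul]
      refine norm_integral_le_of_norm_le (s1.norm.const_mul _)
        (Filter.Eventually.of_forall (fun x => ?_))
      rw [norm_mul]
      by_cases hx : x ∈ symmDiff D' D
      · have hx' : ‖x‖ ≤ ρ := (mem_ball_zero_iff.mp (hSρ hx)).le
        gcongr
        exact ph_diff w v x ρ hx'
      · have : ‖s x‖ = 0 := by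
          rw [hsn]; unfold ind; rw [indicator_of_notMem hx, norm_zero]
        rw [this]; simp
    have h4 : √lam * (2 * π * ‖w - v‖) ≤ |m w| := by
      have h5 : m w = (√lam - 2 * π * ‖w‖) * (√lam + 2 * π * ‖w‖) := by
        simp only [hm]; nlinarith
      have h6 : 2 * π * ‖w - v‖ = |√lam - 2 * π * ‖w‖| := by
        rw [hv2, ← abs_of_pos (show (0 : ℝ) < 2 * π by positivity), ← abs_mul,
          abs_of_pos (show (0 : ℝ) < 2 * π by positivity), abs_sub_comm]
        congr 1
        field_simp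
      rw [h5, abs_mul, h6, mul_comm]
      have h7 : √lam ≤ |√lam + 2 * π * ‖w‖| := by
        rw [abs_of_nonneg (by positivity)]
        have : 0 ≤ 2 * π * ‖w‖ := by positivity
        linarith
      gcongr
    have hmw : 0 < |m w| := abs_pos.mpr hw
    have h8 : |m w| * ‖𝓕 W w‖ ≤ 2 * π * ρ * ‖w - v‖ * δ := by
      have := Fs w
      have h9 : ‖𝓕 s w‖ = |m w| * ‖𝓕 W w‖ := by
        rw [this, norm_mul, Complex.norm_real, Real.norm_eq_abs]
      rw [← h9]; exact h2
    rw [le_div_iff₀ hsl]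
    have h10 : |m w| * (‖𝓕 W w‖ * √lam) ≤ |m w| * (ρ * δ) := by
      calc |m w| * (‖𝓕 W w‖ * √lam) = (|m w| * ‖𝓕 W w‖) * √lam := by ring
        _ ≤ (2 * π * ρ * ‖w - v‖ * δ) * √lam := by gcongr
        _ = (√lam * (2 * π * ‖w - v‖)) * (ρ * δ) := by ring
        _ ≤ |m w| * (ρ * δ) := by gcongr
    exact le_of_mul_le_mul_left h10 hmw
  -- the a.e. bound
  have hSb : ∀ w, ‖𝓕 (ind (symmDiff D' D)) w‖ ≤ δ := fun w => (F_norm _ _).trans hS_int.le
  have hnull : ∀ᵐ w : ℂ, m w ≠ 0 := by
    rw [ae_iff]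
    refine measure_mono_null (t := sphere (0 : ℂ) (√lam / (2 * π))) ?_ ?_
    · intro w hw
      have hw' : m w = 0 := by simpa using hw
      simp only [hm] at hw'
      have h1 : 2 * π * ‖w‖ = √lam := by
        have h2 : (2 * π * ‖w‖) ^ 2 = lam := by linarith
        rw [← h2, Real.sqrt_sq (by positivity)]
      rw [mem_sphere_zero_iff_norm, ← h1]
      field_simp
    · exact Measure.addHaar_sphere _ _ _
  have hkey : ‖∫ w, 𝓕 W w * star (𝓕 (ind (symmDiff D' D)) w)‖ ≤
      V * (ρ * δ / √lam * δ) + (1 / (2 * N)) * (δ + δ) := by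
    have i1 : Integrable (fun w => ‖𝓕 s w‖ ^ 2) := int_sq s s1 s2
    have i2 : Integrable (fun w => ‖𝓕 (ind (symmDiff D' D)) w‖ ^ 2) := int_sq _ S1 S2
    have i3 : Integrable ((ball (0 : ℂ) R).indicator (fun _ => ρ * δ / √lam * δ)) := by
      rw [integrable_indicator_iff measurableSet_ball]
      exact integrableOn_const measure_ball_lt_top.ne
    have i4 : Integrable (fun w => (1 / (2 * N)) *
        (‖𝓕 s w‖ ^ 2 + ‖𝓕 (ind (symmDiff D' D)) w‖ ^ 2)) := (i1.add i2).const_mul _
    have h1 : ∫ w, ((ball (0 : ℂ) R).indicator (fun _ => ρ * δ / √lam * δ) w +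
        (1 / (2 * N)) * (‖𝓕 s w‖ ^ 2 + ‖𝓕 (ind (symmDiff D' D)) w‖ ^ 2)) =
        V * (ρ * δ / √lam * δ) + (1 / (2 * N)) * (δ + δ) := by
      rw [integral_add i3 i4, integral_const_mul, integral_add i1 i2,
        plancherel s s1 s2, plancherel _ S1 S2, hssq, hSsq,
        integral_indicator_const _ measurableSet_ball, smul_eq_mul]
    rw [← h1]
    refine norm_integral_le_of_norm_le (i3.add i4) ?_
    filter_upwards [hnull] with w hw
    rw [norm_mul, norm_star]
    by_cases hwR : w ∈ ball (0 : ℂ) R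
    · rw [indicator_of_mem hwR]
      have h2 : ‖𝓕 W w‖ * ‖𝓕 (ind (symmDiff D' D)) w‖ ≤ ρ * δ / √lam * δ :=
        mul_le_mul (hb w hw) (hSb w) (norm_nonneg _) (by positivity)
      have h3 : 0 ≤ (1 / (2 * N)) * (‖𝓕 s w‖ ^ 2 + ‖𝓕 (ind (symmDiff D' D)) w‖ ^ 2) := by
        positivity
      linarith
    · rw [indicator_of_notMem hwR, zero_add]
      have h4 : R ≤ ‖w‖ := by
        rw [mem_ball_zero_iff, not_lt] at hwR; exact hwR
      have h5 : √(N + lam) ≤ 2 * π * ‖w‖ := by
        rw [hR, div_le_iff₀ (by positivity)] at h4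
        linarith
      have h6 : N + lam ≤ (2 * π * ‖w‖) ^ 2 := by
        have := Real.sq_sqrt (show 0 ≤ N + lam by positivity)
        rw [← this]
        gcongr
      have h7 : N ≤ |m w| := by
        simp only [hm]
        rw [abs_of_nonpos (by linarith)]
        linarith
      have h8 : N * ‖𝓕 W w‖ ≤ ‖𝓕 s w‖ := by
        rw [Fs w, norm_mul, Complex.norm_real, Real.norm_eq_abs]
        gcongr
      have h9 : 0 ≤ (‖𝓕 s w‖ - ‖𝓕 (ind (symmDiff D' D)) w‖) ^ 2 := sq_nonneg _
      have h10 : ‖𝓕 W w‖ * ‖𝓕 (ind (symmDiff D' D)) w‖ =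
          (1 / (2 * N)) * (2 * (N * ‖𝓕 W w‖) * ‖𝓕 (ind (symmDiff D' D)) w‖) := by
        field_simp
      rw [h10]
      gcongr
      nlinarith [norm_nonneg (𝓕 (ind (symmDiff D' D)) w)]
  rw [a4, a3] at hkey
  have hfin : |volume.real D' - volume.real D| = lam * ‖(∫ x, u' x) - ∫ x, u x‖ := by
    have h1 : (lam : ℂ) * ((∫ x, u' x) - ∫ x, u x) =
        ((volume.real D' - volume.real D : ℝ) : ℂ) := by
      rw [mul_sub, a1, a1']; push_cast; ring
    have h2 := congrArg norm h1
    rw [norm_mul, Complex.norm_real, Complex.norm_real, Real.norm_eq_abs, Real.norm_eq_abs,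
      abs_of_pos hlam] at h2
    exact h2.symm
  rw [hfin]
  calc lam * ‖(∫ x, u' x) - ∫ x, u x‖
      ≤ lam * (V * (ρ * δ / √lam * δ) + (1 / (2 * N)) * (δ + δ)) := by gcongr
    _ = (√lam * V * ρ * δ) * δ + η / 2 * δ := by
        have h1 : lam / √lam = √lam := by
          rw [div_eq_iff hsl.ne']; exact hsl2.symm
        have h2 : lam * (1 / (2 * N)) = η / 4 := by
          rw [hN]; field_simp; norm_num
        calc lam * (V * (ρ * δ / √lam * δ) + (1 / (2 * N)) * (δ + δ))
            = (lam / √lam) * V * ρ * δ * δ + (lam * (1 / (2 * N))) * (δ + δ) := by ring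
          _ = _ := by rw [h1, h2]; ring
    _ ≤ η / 2 * δ + η / 2 * δ := by
        have h3 : √lam * V * ρ * δ ≤ η / 2 := by
          rw [le_div_iff₀ (by positivity)] at hδ
          have : 0 ≤ √lam * V * ρ := by positivity
          nlinarith
        gcongr
    _ = η * δ := by ring

end Q190.SF
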