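import Mathlib
import Pool.Agent.Q90.SF.Stm

/-!
# Change of variables for Lipschitz deformations
-/

set_option autoImplicit false

open MeasureTheory Metric Set Filter Topology
open scoped Real NNReal

namespace Q190.SF

open Q90.SF

noncomputable def ta (X : ℂ → ℂ) (x : ℂ) : ℝ := (fderiv ℝ X x 1).re + (fderiv ℝ X x Complex.I).im
noncomputable def tb (X : ℂ → ℂ) (x : ℂ) : ℝ :=
  (fderiv ℝ X x 1).re * (fderiv ℝ X x Complex.I).im -
    (fderiv ℝ X x Complex.I).re * (fderiv ℝ X x 1).im

lemma meas_app (X : ℂ → ℂ) (v : ℂ) : Measurable (fun x => fderiv ℝ X x v) :=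
  measurable_fderiv_apply_const ℝ X v

lemma det_eq (A : ℂ →L[ℝ] ℂ) (t : ℝ) :
    (ContinuousLinearMap.id ℝ ℂ + t • A).det =
      1 + t * ((A 1).re + (A Complex.I).im) +
        t ^ 2 * ((A 1).re * (A Complex.I).im - (A Complex.I).re * (A 1).im) := by
  rw [ContinuousLinearMap.det, ← LinearMap.det_toMatrix Complex.basisOneI, Matrix.det_fin_two]
  simp only [LinearMap.toMatrix_apply, Complex.coe_basisOneI_repr, Complex.coe_basisOneI,
    Matrix.cons_val_zero, Matrix.cons_val_one]
  simp
  ring

lemma image_null (F : ℂ → ℂ) (K : ℝ≥0) (hF : LipschitzWith K F) (s : Set ℂ)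
    (hs : volume s = 0) : volume (F '' s) = 0 := by
  have h1 : volume ≪ (Measure.hausdorffMeasure (Module.finrank ℝ ℂ) : Measure ℂ) :=
    Measure.absolutelyContinuous_isAddHaarMeasure _ _
  have h2 : (Measure.hausdorffMeasure (Module.finrank ℝ ℂ) : Measure ℂ) ≪ volume :=
    Measure.absolutelyContinuous_isAddHaarMeasure _ _
  apply h1
  have h3 := hF.hausdorffMeasure_image_le (d := Module.finrank ℝ ℂ) (by positivity) s
  rw [h2 hs, mul_zero] at h3
  exact le_antisymm h3 zero_le

lemma dfm_lip (X : ℂ → ℂ) (L : ℝ≥0) (hX : LipschitzWith L X) (t : ℝ) :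
    LipschitzWith (1 + ‖t‖₊ * L) (dfm X t) := by
  have h1 : LipschitzWith (‖t‖₊ * L) (fun x => t • X x) := by
    refine LipschitzWith.of_dist_le_mul (fun x y => ?_)
    rw [dist_eq_norm, ← smul_sub, norm_smul, ← dist_eq_norm]
    have := hX.dist_le_mul x y
    push_cast
    rw [mul_assoc]
    gcongr
  exact LipschitzWith.id.add h1

lemma dfm_deriv (X : ℂ → ℂ) (t : ℝ) (x : ℂ) (h : DifferentiableAt ℝ X x) :
    HasFDerivAt (dfm X t) (ContinuousLinearMap.id ℝ ℂ + t • fderiv ℝ X x) x := by
  unfold dfm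
  exact (hasFDerivAt_id x).add (h.hasFDerivAt.const_smul t)

lemma anti_deriv (F : ℂ → ℂ) (A : ℂ →L[ℝ] ℂ) (x : ℂ) (h : HasFDerivAt F A x) (c : ℝ)
    (hc : ∀ x y, c * ‖x - y‖ ≤ ‖F x - F y‖) (v : ℂ) : c * ‖v‖ ≤ ‖A v‖ := by
  have hlim := h.lim v (c := fun n : ℕ => (n : ℝ)) (l := atTop) (by
    simp only [Real.norm_natCast]
    exact tendsto_natCast_atTop_atTop)
  refine ge_of_tendsto hlim.norm ?_
  filter_upwards [eventually_ge_atTop 1] with n hn
  have hn' : (0 : ℝ) < n := by exact_mod_cast hn
  rw [norm_smul, Real.norm_natCast]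
  have h1 := hc (x + (n : ℝ)⁻¹ • v) x
  rw [add_sub_cancel_left, norm_smul, norm_inv, Real.norm_natCast] at h1
  calc c * ‖v‖ = n * (c * ((n : ℝ)⁻¹ * ‖v‖)) := by field_simp
    _ ≤ n * ‖F (x + (n : ℝ)⁻¹ • v) - F x‖ := by gcongr

theorem lcv : S_lcv := by
  intro X J hX
  obtain ⟨L, hL⟩ := hX.lip
  have hb : ∀ x, ‖fderiv ℝ X x‖ ≤ L := fun x => norm_fderiv_le_of_lipschitz ℝ hL
  have h1 : ∀ x, ‖fderiv ℝ X x 1‖ ≤ L := fun x => by
    have := (fderiv ℝ X x).le_opNorm 1
    rw [norm_one, mul_one] at this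
    exact this.trans (hb x)
  have hI : ∀ x, ‖fderiv ℝ X x Complex.I‖ ≤ L := fun x => by
    have := (fderiv ℝ X x).le_opNorm Complex.I
    rw [Complex.norm_I, mul_one] at this
    exact this.trans (hb x)
  have hL0 : (0 : ℝ) ≤ L := L.2
  refine ⟨ta X, tb X, 2 * L + 2 * L ^ 2, ?_, ?_, ?_, ?_⟩
  · exact (Complex.measurable_re.comp (meas_app X 1)).add
      (Complex.measurable_im.comp (meas_app X Complex.I))
  · exact ((Complex.measurable_re.comp (meas_app X 1)).mul
      (Complex.measurable_im.comp (meas_app X Complex.I))).sub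
      ((Complex.measurable_re.comp (meas_app X Complex.I)).mul
      (Complex.measurable_im.comp (meas_app X 1)))
  · intro x
    have a1 := (Complex.abs_re_le_norm _).trans (h1 x)
    have a2 := (Complex.abs_im_le_norm _).trans (h1 x)
    have a3 := (Complex.abs_re_le_norm _).trans (hI x)
    have a4 := (Complex.abs_im_le_norm _).trans (hI x)
    constructor
    · unfold ta
      refine (abs_add_le _ _).trans ?_
      nlinarith [sq_nonneg (L : ℝ)]
    · unfold tb
      refine (abs_sub _ _).trans ?_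
      rw [abs_mul, abs_mul]
      have m1 := mul_le_mul a1 a4 (abs_nonneg _) hL0
      have m2 := mul_le_mul a3 a2 (abs_nonneg _) hL0
      nlinarith
  · intro t ht S hS φ
    set N : Set ℂ := {x | ¬ DifferentiableAt ℝ X x} with hN
    have hNm : MeasurableSet N := (measurableSet_of_differentiableAt ℝ X).compl
    have hN0 : volume N = 0 := by
      have := hL.ae_differentiableAt (μ := volume)
      rw [ae_iff] at this
      exact this
    -- injectivity
    obtain ⟨c, hc0, hc⟩ := hX.anti t ht
    have hinj : Function.Injective (dfm X t) := by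
      intro x y hxy
      have := hc x y
      rw [hxy, sub_self, norm_zero] at this
      have h2 : ‖x - y‖ ≤ 0 := by
        by_contra hcon
        push Not at hcon
        nlinarith
      exact sub_eq_zero.mp (norm_le_zero_iff.mp h2)
    -- positivity of the determinant
    have hpos : ∀ x, x ∉ N → 0 < 1 + t * ta X x + t ^ 2 * tb X x := by
      intro x hx
      have hdx : DifferentiableAt ℝ X x := not_not.mp hx
      have hcont : Continuous (fun s : ℝ => 1 + s * ta X x + s ^ 2 * tb X x) := by fun_prop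
      by_contra hcon
      push Not at hcon
      have hiv := hX.conn.intermediate_value ht hX.zero hcont.continuousOn
      have h0 : (0 : ℝ) ∈ Icc (1 + t * ta X x + t ^ 2 * tb X x)
          (1 + (0 : ℝ) * ta X x + (0 : ℝ) ^ 2 * tb X x) := by
        constructor
        · exact hcon
        · norm_num
      obtain ⟨s, hs, hs0⟩ := hiv h0
      obtain ⟨c', hc0', hc'⟩ := hX.anti s hs
      have hanti := anti_deriv (dfm X s) _ x (dfm_deriv X s x hdx) c' hc'
      have hdet := det_eq (fderiv ℝ X x) s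
      have hdet0 : (ContinuousLinearMap.id ℝ ℂ + s • fderiv ℝ X x).det = 0 := by
        rw [hdet]; exact hs0
      rw [ContinuousLinearMap.det] at hdet0
      obtain ⟨v, hv, hv0⟩ : ∃ v, v ≠ 0 ∧ (ContinuousLinearMap.id ℝ ℂ + s • fderiv ℝ X x) v = 0 := by
        have := LinearMap.bot_lt_ker_of_det_eq_zero hdet0
        obtain ⟨v, hv1, hv2⟩ := Submodule.exists_mem_ne_zero_of_ne_bot this.ne'
        exact ⟨v, hv2, LinearMap.mem_ker.mp hv1⟩
      have h5 := hanti v
      rw [hv0, norm_zero] at h5
      have h6 : 0 < ‖v‖ := norm_pos_iff.mpr hv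
      nlinarith
    -- the two null sets
    have hSN : S \ N =ᵐ[volume] S := by
      refine sdiff_null_ae_eq_self hN0
    have himg : dfm X t '' (S \ N) =ᵐ[volume] dfm X t '' S := by
      have h7 : dfm X t '' S = dfm X t '' (S \ N) ∪ dfm X t '' (S ∩ N) := by
        rw [← image_union, sdiff_union_inter]
      rw [h7]
      have h8 : volume (dfm X t '' (S ∩ N)) = 0 :=
        image_null _ _ (dfm_lip X L hL t) _ (measure_mono_null inter_subset_right hN0)
      exact (union_ae_eq_left_of_ae_eq_empty (ae_eq_empty.mpr h8)).symm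
    rw [← setIntegral_congr_set himg, ← setIntegral_congr_set hSN]
    rw [integral_image_eq_integral_abs_det_fderiv_smul volume (hS.diff hNm)
      (f' := fun x => ContinuousLinearMap.id ℝ ℂ + t • fderiv ℝ X x)
      (fun x hx => (dfm_deriv X t x (not_not.mp hx.2)).hasFDerivWithinAt) hinj.injOn]
    refine setIntegral_congr_fun (hS.diff hNm) (fun x hx => ?_)
    rw [det_eq]
    have h9 := hpos x hx.2
    unfold ta tb at h9
    rw [abs_of_pos h9, Complex.real_smul, mul_comm]
    rfl

end Q190.SF
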