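import Mathlib
import Pool.Agent.Q90.SF.Stm

/-!
# Polar coordinates for star-shaped domains
-/

set_option autoImplicit false

open MeasureTheory Metric Set
open scoped Real

namespace Q190.SF

open Q90.SF

lemma meas_star (R : ℝ → ℝ) (hR : Continuous R) : MeasurableSet (starDom R) :=
  measurableSet_lt measurable_norm (hR.measurable.comp Complex.measurable_arg)

lemma symm_eq (p : ℝ × ℝ) :
    Complex.polarCoord.symm p = p.1 * Complex.exp (p.2 * Complex.I) := by
  rw [Complex.polarCoord_symm_apply, Complex.exp_mul_I]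
  simp

lemma arg_exp' {r θ : ℝ} (hr : 0 < r) (hθ : θ ∈ Ioo (-π) π) :
    Complex.arg ((r : ℂ) * Complex.exp (θ * Complex.I)) = θ := by
  rw [Complex.exp_mul_I]
  exact Complex.arg_mul_cos_add_sin_mul_I hr ⟨hθ.1, hθ.2.le⟩

lemma norm_exp' {r θ : ℝ} (hr : 0 < r) :
    ‖(r : ℂ) * Complex.exp (θ * Complex.I)‖ = r := by
  rw [norm_mul, Complex.norm_exp_ofReal_mul_I, mul_one, Complex.norm_real, Real.norm_eq_abs,
    abs_of_pos hr]

/-- bound of `R` on `[-π, π]` -/
lemma exists_bd (R : ℝ → ℝ) (hR : Continuous R) :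
    ∃ M : ℝ, 0 < M ∧ ∀ θ ∈ Icc (-π) π, R θ ≤ M := by
  obtain ⟨M, hM⟩ := (isCompact_Icc (a := -π) (b := π)).bddAbove_image hR.continuousOn
  refine ⟨max M 1, by positivity, fun θ hθ => ?_⟩
  exact (hM (mem_image_of_mem R hθ)).trans (le_max_left _ _)

lemma star_sub (R : ℝ → ℝ) (hR : Continuous R) : ∃ M : ℝ, 0 < M ∧ starDom R ⊆ ball 0 M := by
  obtain ⟨M, h0, hM⟩ := exists_bd R hR
  refine ⟨M, h0, fun z hz => ?_⟩
  rw [mem_ball_zero_iff]
  exact lt_of_lt_of_le hz (hM _ ⟨(Complex.neg_pi_lt_arg z).le, Complex.arg_le_pi z⟩)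

lemma star_fin (R : ℝ → ℝ) (hR : Continuous R) : volume (starDom R) ≠ ⊤ := by
  obtain ⟨M, h0, hM⟩ := star_sub R hR
  exact (lt_of_le_of_lt (measure_mono hM) measure_ball_lt_top).ne

theorem pol2 (R : ℝ → ℝ) (hR : Continuous R) (hR0 : ∀ θ, 0 ≤ R θ) (φ : ℂ → ℂ)
    (hφ : Continuous φ) :
    ∫ x in starDom R, φ x = ∫ θ in (-π)..π, ∫ r in (0 : ℝ)..R θ,
      (r : ℂ) * φ (r * Complex.exp (θ * Complex.I)) := by
  rw [← integral_indicator (meas_star R hR), ← Complex.integral_comp_polarCoord_symm,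
    polarCoord_target]
  set F : ℝ × ℝ → ℂ := fun p =>
    if p.1 < R p.2 then (p.1 : ℂ) * φ (p.1 * Complex.exp (p.2 * Complex.I)) else 0 with hF
  have hFm : Measurable F := by
    refine Measurable.ite ?_ ?_ measurable_const
    · exact measurableSet_lt measurable_fst (hR.measurable.comp measurable_snd)
    · have h1 : Continuous (fun p : ℝ × ℝ => (p.1 : ℂ) * φ (p.1 * Complex.exp (p.2 * Complex.I))) := by
        fun_prop
      exact h1.measurable
  have hT : MeasurableSet (Ioi (0 : ℝ) ×ˢ Ioo (-π) π) := measurableSet_Ioi.prod measurableSet_Ioo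
  have h1 : ∫ p in Ioi (0 : ℝ) ×ˢ Ioo (-π) π,
      p.1 • (starDom R).indicator φ (Complex.polarCoord.symm p) =
      ∫ p in Ioi (0 : ℝ) ×ˢ Ioo (-π) π, F p := by
    refine setIntegral_congr_fun hT (fun p hp => ?_)
    obtain ⟨hp1, hp2⟩ := hp
    have hp1' : 0 < p.1 := hp1
    simp only [symm_eq, hF]
    by_cases h : p.1 < R p.2
    · rw [if_pos h, indicator_of_mem, Complex.real_smul]
      change ‖(p.1 : ℂ) * Complex.exp (p.2 * Complex.I)‖ < R (Complex.arg _)
      rw [arg_exp' hp1' hp2, norm_exp' hp1']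
      exact h
    · rw [if_neg h, indicator_of_notMem, smul_zero]
      change ¬ (‖(p.1 : ℂ) * Complex.exp (p.2 * Complex.I)‖ < R (Complex.arg _))
      rw [arg_exp' hp1' hp2, norm_exp' hp1']
      exact h
  rw [h1]
  obtain ⟨M, hM0, hM⟩ := exists_bd R hR
  obtain ⟨B, hB⟩ := (isCompact_closedBall (0 : ℂ) M).exists_bound_of_continuousOn hφ.continuousOn
  have hB0 : 0 ≤ B := (norm_nonneg _).trans (hB 0 (mem_closedBall_self hM0.le))
  have hint : IntegrableOn F (Ioi (0 : ℝ) ×ˢ Ioo (-π) π) := by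
    refine Integrable.mono' (g := (Ioo (0 : ℝ) M ×ˢ Ioo (-π) π).indicator (fun _ => M * B)) ?_
      hFm.aestronglyMeasurable ?_
    · refine Integrable.integrableOn ?_
      rw [integrable_indicator_iff (measurableSet_Ioo.prod measurableSet_Ioo)]
      refine integrableOn_const ?_
      rw [Measure.volume_eq_prod, Measure.prod_prod]
      exact ENNReal.mul_ne_top measure_Ioo_lt_top.ne measure_Ioo_lt_top.ne
    · rw [ae_restrict_iff' hT]
      refine Filter.Eventually.of_forall (fun p hp => ?_)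
      obtain ⟨hp1, hp2⟩ := hp
      have hp1' : 0 < p.1 := hp1
      by_cases h : p.1 < R p.2
      · have h2 : R p.2 ≤ M := hM _ ⟨hp2.1.le, hp2.2.le⟩
        rw [indicator_of_mem (show p ∈ Ioo (0 : ℝ) M ×ˢ Ioo (-π) π from
          ⟨⟨hp1', by linarith⟩, hp2⟩)]
        simp only [hF]
        rw [if_pos h, norm_mul, Complex.norm_real, Real.norm_eq_abs, abs_of_pos hp1']
        have h3 : ‖φ (p.1 * Complex.exp (p.2 * Complex.I))‖ ≤ B := by
          refine hB _ ?_
          rw [mem_closedBall_zero_iff, norm_exp' hp1']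
          linarith
        gcongr
        linarith
      · simp only [hF]
        rw [if_neg h, norm_zero]
        exact indicator_nonneg (fun _ _ => by positivity) _
  have h2 : ∫ p in Ioi (0 : ℝ) ×ˢ Ioo (-π) π, F p =
      ∫ θ in Ioo (-π) π, ∫ r in Ioi (0 : ℝ), F (r, θ) := by
    rw [Measure.volume_eq_prod, ← Measure.prod_restrict]
    refine integral_prod_symm F ?_
    rw [Measure.prod_restrict, ← Measure.volume_eq_prod]
    exact hint
  rw [h2, intervalIntegral.integral_of_le (by linarith [Real.pi_pos]),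
    ← integral_Ioc_eq_integral_Ioo]
  refine integral_congr_ae (Filter.Eventually.of_forall (fun θ => ?_))
  simp only
  rw [intervalIntegral.integral_of_le (hR0 θ), integral_Ioc_eq_integral_Ioo]
  have h3 : ∀ r : ℝ, F (r, θ) =
      (Iio (R θ)).indicator (fun r : ℝ => (r : ℂ) * φ (r * Complex.exp (θ * Complex.I))) r := by
    intro r
    simp only [hF, indicator, mem_Iio]
  simp_rw [h3]
  rw [setIntegral_indicator measurableSet_Iio, Ioi_inter_Iio]

theorem pol3 (R : ℝ → ℝ) (hR : Continuous R) (hR0 : ∀ θ, 0 ≤ R θ) :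
    volume.real (starDom R) = ∫ θ in (-π)..π, R θ ^ 2 / 2 := by
  have h1 := pol2 R hR hR0 (fun _ => 1) continuous_const
  rw [setIntegral_const, Complex.real_smul, mul_one] at h1
  have h2 : ∀ θ : ℝ, ∫ r in (0 : ℝ)..R θ, (r : ℂ) * 1 = ((R θ ^ 2 / 2 : ℝ) : ℂ) := by
    intro θ
    simp only [mul_one]
    rw [intervalIntegral.integral_ofReal, integral_id]
    congr 1
    ring
  simp_rw [h2] at h1
  rw [intervalIntegral.integral_ofReal] at h1
  exact_mod_cast h1

theorem pol4 (R R' : ℝ → ℝ) (hR : Continuous R) (hR' : Continuous R') (hR0 : ∀ θ, 0 ≤ R θ)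
    (hR0' : ∀ θ, 0 ≤ R' θ) :
    volume.real (symmDiff (starDom R) (starDom R')) = ∫ θ in (-π)..π, |R θ ^ 2 - R' θ ^ 2| / 2 := by
  have hmax : Continuous (fun θ => max (R θ) (R' θ)) := hR.max hR'
  have hmin : Continuous (fun θ => min (R θ) (R' θ)) := hR.min hR'
  have h1 : symmDiff (starDom R) (starDom R') =
      starDom (fun θ => max (R θ) (R' θ)) \ starDom (fun θ => min (R θ) (R' θ)) := by
    ext z
    simp only [mem_symmDiff, mem_sdiff, starDom, mem_ofPred_eq, lt_max_iff, lt_min_iff]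
    tauto
  have h2 : starDom (fun θ => min (R θ) (R' θ)) ⊆ starDom (fun θ => max (R θ) (R' θ)) := by
    intro z hz
    simp only [starDom, mem_ofPred_eq, lt_max_iff, lt_min_iff] at hz ⊢
    exact Or.inl hz.1
  rw [h1, measureReal_sdiff h2 (meas_star _ hmin) (star_fin _ hmax), pol3 _ hmax
    (fun θ => le_max_of_le_left (hR0 θ)), pol3 _ hmin (fun θ => le_min (hR0 θ) (hR0' θ)),
    ← intervalIntegral.integral_sub]
  · refine intervalIntegral.integral_congr (fun θ _ => ?_)
    rcases le_total (R θ) (R' θ) with h | h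
    · rw [max_eq_right h, min_eq_left h, abs_of_nonpos]
      · ring
      · nlinarith [hR0 θ, hR0' θ]
    · rw [max_eq_left h, min_eq_right h, abs_of_nonneg]
      · ring
      · nlinarith [hR0 θ, hR0' θ]
  · exact (by fun_prop : Continuous (fun θ => (max (R θ) (R' θ)) ^ 2 / 2)).intervalIntegrable _ _
  · exact (by fun_prop : Continuous (fun θ => (min (R θ) (R' θ)) ^ 2 / 2)).intervalIntegrable _ _

theorem pol : S_pol := ⟨meas_star, pol2, pol3, pol4⟩

end Q190.SF
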